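import Pool.Agent.Run7.h744.DD.Defs

/-!
Project DD: calculus of the partial derivatives `pd i`.
-/

set_option autoImplicit false

open MeasureTheory Set
open scoped InnerProductSpace ContDiff

namespace Run7.h141.DD

open H772R2.NS (E3 M3 jac)
open Run7.h744.DD

theorem da {F : Type} [NormedAddCommGroup F] [NormedSpace ℝ F] {f : E3 → F}
    (hf : ContDiff ℝ ∞ f) (x : E3) : DifferentiableAt ℝ f x :=
  (hf.differentiable (by simp)) x

theorem pd_add {f g : E3 → ℝ} (hf : ContDiff ℝ ∞ f) (hg : ContDiff ℝ ∞ g) (i : Fin 3) (x : E3) :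
    pd i (fun y => f y + g y) x = pd i f x + pd i g x := by
  unfold pd
  rw [show (fun y => f y + g y) = f + g from rfl, fderiv_add (da hf x) (da hg x)]
  rfl

theorem pd_sub {f g : E3 → ℝ} (hf : ContDiff ℝ ∞ f) (hg : ContDiff ℝ ∞ g) (i : Fin 3) (x : E3) :
    pd i (fun y => f y - g y) x = pd i f x - pd i g x := by
  unfold pd
  rw [show (fun y => f y - g y) = f - g from rfl, fderiv_sub (da hf x) (da hg x)]
  rfl

theorem pd_cmul (c : ℝ) (f : E3 → ℝ) (i : Fin 3) (x : E3) :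
    pd i (fun y => c * f y) x = c * pd i f x := by
  unfold pd
  rw [show (fun y => c * f y) = c • f from rfl, fderiv_const_smul_field]
  rfl

theorem pd_sum {ι : Type} (s : Finset ι) {F : ι → E3 → ℝ} (h : ∀ k ∈ s, ContDiff ℝ ∞ (F k))
    (i : Fin 3) (x : E3) :
    pd i (fun y => ∑ k ∈ s, F k y) x = ∑ k ∈ s, pd i (F k) x := by
  unfold pd
  rw [fderiv_fun_sum (fun k hk => da (h k hk) x)]
  simp

theorem pd_mul {f g : E3 → ℝ} (hf : ContDiff ℝ ∞ f) (hg : ContDiff ℝ ∞ g) (i : Fin 3) (x : E3) :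
    pd i (fun y => f y * g y) x = f x * pd i g x + pd i f x * g x := by
  unfold pd
  rw [show (fun y => f y * g y) = f * g from rfl, fderiv_mul (da hf x) (da hg x)]
  simp [mul_comm]

theorem pd_contDiff {f : E3 → ℝ} (hf : ContDiff ℝ ∞ f) (i : Fin 3) : ContDiff ℝ ∞ (pd i f) :=
  (hf.fderiv_right (m := ∞) (by simp)).clm_apply contDiff_const

theorem pd_eq_zero {f : E3 → ℝ} {x : E3} (h : x ∉ tsupport f) (i : Fin 3) : pd i f x = 0 := by
  unfold pd
  have h0 : fderiv ℝ f x = 0 := by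
    have : x ∉ tsupport (fderiv ℝ f) := fun h' => h (tsupport_fderiv_subset ℝ h')
    exact image_eq_zero_of_notMem_tsupport this
  rw [h0]
  rfl

theorem tsupport_pd (f : E3 → ℝ) (i : Fin 3) : tsupport (pd i f) ⊆ tsupport f := by
  refine closure_minimal ?_ (isClosed_tsupport f)
  intro x hx
  by_contra hcon
  exact hx (pd_eq_zero hcon i)

theorem pd_comm {f : E3 → ℝ} (hf : ContDiff ℝ ∞ f) (i j : Fin 3) (x : E3) :
    pd i (pd j f) x = pd j (pd i f) x := by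
  have hs : IsSymmSndFDerivAt ℝ f x := by
    refine (hf.contDiffAt).isSymmSndFDerivAt ?_
    simp only [minSmoothness_of_isRCLikeNormedField]
    exact WithTop.coe_le_coe.mpr (le_top : (2:ℕ∞) ≤ ⊤)
  have key : ∀ a b : Fin 3, pd a (pd b f) x
      = fderiv ℝ (fderiv ℝ f) x (EuclideanSpace.single a 1) (EuclideanSpace.single b 1) := by
    intro a b
    unfold pd
    have hd : DifferentiableAt ℝ (fderiv ℝ f) x :=
      ((hf.fderiv_right (m := ∞) (by simp)).differentiable (by simp)) x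
    rw [fderiv_clm_apply hd (by fun_prop)]
    simp
  rw [key, key]
  exact hs _ _

theorem pd_joint {g : ℝ → E3 → ℝ} (hg : ContDiff ℝ ∞ (fun p : ℝ × E3 => g p.1 p.2)) (i : Fin 3) :
    ContDiff ℝ ∞ (fun p : ℝ × E3 => pd i (g p.1) p.2) := by
  have h : (fun p : ℝ × E3 => pd i (g p.1) p.2)
      = fun p : ℝ × E3 => fderiv ℝ (fun p : ℝ × E3 => g p.1 p.2) p
        ((0 : ℝ), (EuclideanSpace.single i 1 : E3)) := by
    funext p
    unfold pd
    have hd : HasFDerivAt (fun p : ℝ × E3 => g p.1 p.2)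
        (fderiv ℝ (fun p : ℝ × E3 => g p.1 p.2) (p.1, p.2)) (p.1, p.2) :=
      ((hg.differentiable (by simp)) _).hasFDerivAt
    have h2 : HasFDerivAt (fun y : E3 => (p.1, y)) (ContinuousLinearMap.inr ℝ ℝ E3) p.2 :=
      hasFDerivAt_prodMk_right p.1 p.2
    have h3 := hd.comp p.2 h2
    have h4 : fderiv ℝ (g p.1) p.2 = (fderiv ℝ (fun p : ℝ × E3 => g p.1 p.2) (p.1, p.2)).comp
        (ContinuousLinearMap.inr ℝ ℝ E3) := h3.fderiv
    rw [h4]
    rfl
  rw [h]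
  exact (hg.fderiv_right (m := ∞) (by simp)).clm_apply contDiff_const

theorem deriv_joint {F : Type} [NormedAddCommGroup F] [NormedSpace ℝ F] {g : ℝ → E3 → F}
    (hg : ContDiff ℝ ∞ (fun p : ℝ × E3 => g p.1 p.2)) :
    ContDiff ℝ ∞ (fun p : ℝ × E3 => deriv (fun s => g s p.2) p.1) := by
  have h : (fun p : ℝ × E3 => deriv (fun s => g s p.2) p.1)
      = fun p : ℝ × E3 => fderiv ℝ (fun p : ℝ × E3 => g p.1 p.2) p
        ((1 : ℝ), (0 : E3)) := by
    funext p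
    have hd : HasFDerivAt (fun p : ℝ × E3 => g p.1 p.2)
        (fderiv ℝ (fun p : ℝ × E3 => g p.1 p.2) (p.1, p.2)) (p.1, p.2) :=
      ((hg.differentiable (by simp)) _).hasFDerivAt
    have h2 : HasFDerivAt (fun s : ℝ => (s, p.2)) (ContinuousLinearMap.inl ℝ ℝ E3) p.1 :=
      hasFDerivAt_prodMk_left p.1 p.2
    have h3 := hd.comp p.1 h2
    have h4 : HasDerivAt (fun s => g s p.2)
        (((fderiv ℝ (fun p : ℝ × E3 => g p.1 p.2) (p.1, p.2)).comp
        (ContinuousLinearMap.inl ℝ ℝ E3)) 1) p.1 := h3.hasDerivAt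
    rw [h4.deriv]
    rfl
  rw [h]
  exact (hg.fderiv_right (m := ∞) (by simp)).clm_apply contDiff_const

theorem cd_apply {f : E3 → E3} (hf : ContDiff ℝ ∞ f) (i : Fin 3) :
    ContDiff ℝ ∞ (fun y => f y i) :=
  (EuclideanSpace.proj (𝕜 := ℝ) i : E3 →L[ℝ] ℝ).contDiff.comp hf

theorem joint_apply {g : ℝ → E3 → E3} (hg : ContDiff ℝ ∞ (fun p : ℝ × E3 => g p.1 p.2))
    (i : Fin 3) : ContDiff ℝ ∞ (fun p : ℝ × E3 => g p.1 p.2 i) :=
  (EuclideanSpace.proj (𝕜 := ℝ) i : E3 →L[ℝ] ℝ).contDiff.comp hg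

theorem cd_toLp {G : Fin 3 → E3 → ℝ} (h : ∀ i, ContDiff ℝ ∞ (G i)) :
    ContDiff ℝ ∞ (fun y => (WithLp.toLp 2 (fun i => G i y) : E3)) := by
  refine (contDiff_euclidean).mpr ?_
  intro i
  exact h i

theorem joint_toLp {G : Fin 3 → ℝ → E3 → ℝ}
    (h : ∀ i, ContDiff ℝ ∞ (fun p : ℝ × E3 => G i p.1 p.2)) :
    ContDiff ℝ ∞ (fun p : ℝ × E3 => (WithLp.toLp 2 (fun i => G i p.1 p.2) : E3)) := by
  refine (contDiff_euclidean).mpr ?_
  intro i
  exact h i

/-- sections of jointly smooth functions -/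
theorem joint_x {F : Type} [NormedAddCommGroup F] [NormedSpace ℝ F] {g : ℝ → E3 → F}
    (hg : ContDiff ℝ ∞ (fun p : ℝ × E3 => g p.1 p.2)) (t : ℝ) : ContDiff ℝ ∞ (g t) :=
  hg.comp (contDiff_prodMk_right t)

theorem joint_t {F : Type} [NormedAddCommGroup F] [NormedSpace ℝ F] {g : ℝ → E3 → F}
    (hg : ContDiff ℝ ∞ (fun p : ℝ × E3 => g p.1 p.2)) (x : E3) : ContDiff ℝ ∞ (fun s => g s x) :=
  hg.comp (contDiff_prodMk_left x)

theorem lapS_contDiff {f : E3 → ℝ} (hf : ContDiff ℝ ∞ f) : ContDiff ℝ ∞ (lapS f) := by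
  unfold lapS
  exact ContDiff.sum (fun j _ => pd_contDiff (pd_contDiff hf j) j)

theorem lapS_joint {g : ℝ → E3 → ℝ} (hg : ContDiff ℝ ∞ (fun p : ℝ × E3 => g p.1 p.2)) :
    ContDiff ℝ ∞ (fun p : ℝ × E3 => lapS (g p.1) p.2) := by
  unfold lapS
  exact ContDiff.sum (fun j _ => pd_joint (g := fun t => pd j (g t)) (pd_joint hg j) j)

theorem pd_add_fun {f g : E3 → ℝ} (hf : ContDiff ℝ ∞ f) (hg : ContDiff ℝ ∞ g) (i : Fin 3) :
    pd i (fun y => f y + g y) = fun x => pd i f x + pd i g x :=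
  funext (pd_add hf hg i)

theorem pd_cmul_fun (c : ℝ) (f : E3 → ℝ) (i : Fin 3) :
    pd i (fun y => c * f y) = fun x => c * pd i f x :=
  funext (pd_cmul c f i)

theorem pd_sum_fun {ι : Type} (s : Finset ι) {F : ι → E3 → ℝ} (h : ∀ k ∈ s, ContDiff ℝ ∞ (F k))
    (i : Fin 3) :
    pd i (fun y => ∑ k ∈ s, F k y) = fun x => ∑ k ∈ s, pd i (F k) x :=
  funext (pd_sum s h i)

theorem lapS_add {f g : E3 → ℝ} (hf : ContDiff ℝ ∞ f) (hg : ContDiff ℝ ∞ g) (x : E3) :
    lapS (fun y => f y + g y) x = lapS f x + lapS g x := by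
  unfold lapS
  rw [← Finset.sum_add_distrib]
  refine Finset.sum_congr rfl fun j _ => ?_
  rw [pd_add_fun hf hg, pd_add (pd_contDiff hf j) (pd_contDiff hg j)]

theorem lapS_cmul (c : ℝ) (f : E3 → ℝ) (x : E3) :
    lapS (fun y => c * f y) x = c * lapS f x := by
  unfold lapS
  rw [Finset.mul_sum]
  refine Finset.sum_congr rfl fun j _ => ?_
  rw [pd_cmul_fun, pd_cmul]

theorem lapS_sum {ι : Type} (s : Finset ι) {F : ι → E3 → ℝ} (h : ∀ k ∈ s, ContDiff ℝ ∞ (F k))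
    (x : E3) :
    lapS (fun y => ∑ k ∈ s, F k y) x = ∑ k ∈ s, lapS (F k) x := by
  unfold lapS
  rw [Finset.sum_comm]
  refine Finset.sum_congr rfl fun j _ => ?_
  rw [pd_sum_fun s h, pd_sum s (fun k hk => pd_contDiff (h k hk) j)]

theorem lapS_eq_zero {f : E3 → ℝ} {x : E3} (h : x ∉ tsupport f) : lapS f x = 0 := by
  unfold lapS
  exact Finset.sum_eq_zero fun j _ => pd_eq_zero (fun h' => h (tsupport_pd f j h')) j

theorem tsupport_lapS (f : E3 → ℝ) : tsupport (lapS f) ⊆ tsupport f := by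
  refine closure_minimal ?_ (isClosed_tsupport f)
  intro x hx
  by_contra hcon
  exact hx (lapS_eq_zero hcon)

end Run7.h141.DD
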