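import Pool.Agent.Run7.h744.DD.Iface
import Pool.Agent.Run7.h141.DD.Calc

/-!
Project DD, piece GEO: rescaled cells.
-/

set_option autoImplicit false

open MeasureTheory Set
open scoped InnerProductSpace ContDiff

namespace Run7.h141.DD

open H772R2.NS (E3 M3 jac)
open Run7.h744.DD

theorem tsup_of_zero {F : Type} [Zero F] {K : Set E3} (hK : IsClosed K) {f : E3 → F}
    (h : ∀ x, x ∉ K → f x = 0) : tsupport f ⊆ K := by
  refine closure_minimal ?_ hK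
  intro x hx
  by_contra hcon
  exact hx (h x hcon)

theorem sm_of_zero {F : Type} [NormedAddCommGroup F] [NormedSpace ℝ F] {K : Set E3}
    (hK : IsCompact K) {f : E3 → F} (hf : ContDiff ℝ ∞ f)
    (h : ∀ x, x ∉ K → f x = 0) : Sm f :=
  ⟨hf, HasCompactSupport.intro hK (fun x hx => h x hx)⟩

theorem scl_cd {f : E3 → ℝ} (hf : ContDiff ℝ ∞ f) (x0 : E3) (ρ : ℝ) :
    ContDiff ℝ ∞ (scl x0 ρ f) := by
  unfold scl
  exact hf.comp (by fun_prop)

theorem pd_scl {f : E3 → ℝ} (hf : ContDiff ℝ ∞ f) (x0 : E3) (ρ : ℝ) (i : Fin 3) (x : E3) :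
    pd i (scl x0 ρ f) x = ρ⁻¹ * scl x0 ρ (pd i f) x := by
  have h1 : HasFDerivAt f (fderiv ℝ f (ρ⁻¹ • (x - x0))) (ρ⁻¹ • (x - x0)) :=
    (da hf _).hasFDerivAt
  have h2 : HasFDerivAt (fun y : E3 => ρ⁻¹ • (y - x0))
      (ρ⁻¹ • (ContinuousLinearMap.id ℝ E3)) x :=
    ((hasFDerivAt_id x).sub_const x0).const_smul ρ⁻¹
  have h3 : HasFDerivAt (scl x0 ρ f) ((fderiv ℝ f (ρ⁻¹ • (x - x0))).comp
      (ρ⁻¹ • (ContinuousLinearMap.id ℝ E3))) x := h1.comp x h2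
  unfold pd
  rw [h3.fderiv]
  simp [scl]

theorem pd_scl_fun {f : E3 → ℝ} (hf : ContDiff ℝ ∞ f) (x0 : E3) (ρ : ℝ) (i : Fin 3) :
    pd i (scl x0 ρ f) = fun x => ρ⁻¹ * scl x0 ρ (pd i f) x :=
  funext (pd_scl hf x0 ρ i)

theorem lapS_scl {f : E3 → ℝ} (hf : ContDiff ℝ ∞ f) (x0 : E3) (ρ : ℝ) (x : E3) :
    lapS (scl x0 ρ f) x = ρ⁻¹ * ρ⁻¹ * scl x0 ρ (lapS f) x := by
  unfold lapS
  have h : ∀ j : Fin 3, pd j (pd j (scl x0 ρ f)) x
      = ρ⁻¹ * ρ⁻¹ * scl x0 ρ (pd j (pd j f)) x := by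
    intro j
    rw [pd_scl_fun hf, pd_cmul, pd_scl (pd_contDiff hf j)]
    ring
  rw [Finset.sum_congr rfl (fun j _ => h j), ← Finset.mul_sum]
  rfl

theorem scl_zero {f : E3 → ℝ} {x0 : E3} {ρ : ℝ} (hρ : 0 < ρ)
    (hf : tsupport f ⊆ Metric.closedBall 0 1) {x : E3} (hx : x ∉ Metric.closedBall x0 ρ) :
    scl x0 ρ f x = 0 := by
  unfold scl
  apply image_eq_zero_of_notMem_tsupport
  intro h
  apply hx
  have h1 := hf h
  rw [mem_closedBall_zero_iff, norm_smul, Real.norm_eq_abs, abs_inv, abs_of_pos hρ] at h1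
  rw [Metric.mem_closedBall, dist_eq_norm]
  rwa [inv_mul_le_iff₀ hρ, mul_one] at h1

theorem scl_tsup {f : E3 → ℝ} {x0 : E3} {ρ : ℝ} (hρ : 0 < ρ)
    (hf : tsupport f ⊆ Metric.closedBall 0 1) :
    tsupport (scl x0 ρ f) ⊆ Metric.closedBall x0 ρ :=
  tsup_of_zero Metric.isClosed_closedBall (fun _ hx => scl_zero hρ hf hx)

theorem scl_tsup' (f : E3 → ℝ) (x0 : E3) (ρ : ℝ) :
    tsupport (scl x0 ρ f) ⊆ (fun x : E3 => ρ⁻¹ • (x - x0)) ⁻¹' tsupport f := by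
  refine tsup_of_zero ((isClosed_tsupport f).preimage (by fun_prop)) ?_
  intro x hx
  have h : ρ⁻¹ • (x - x0) ∉ tsupport f := hx
  have h2 : f (ρ⁻¹ • (x - x0)) = 0 := image_eq_zero_of_notMem_tsupport h
  exact h2

theorem lapS_pd {f : E3 → ℝ} (hf : ContDiff ℝ ∞ f) (i : Fin 3) (x : E3) :
    lapS (pd i f) x = pd i (lapS f) x := by
  have h1 : lapS f = fun y => ∑ j, pd j (pd j f) y := rfl
  rw [h1, pd_sum _ (fun j _ => pd_contDiff (pd_contDiff hf j) j)]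
  unfold lapS
  refine Finset.sum_congr rfl fun j _ => ?_
  have h2 : pd j (pd i f) = pd i (pd j f) := funext (pd_comm hf j i)
  rw [h2, pd_comm (pd_contDiff hf j) j i]

theorem t_GEO : S_GEO := by
  intro α b A hC ν β ρ x0 σ hν hβ hρ
  -- notation
  have hB : ∀ l, ContDiff ℝ ∞ (scl x0 ρ (b (σ l))) := fun l => scl_cd (hC.sb _) x0 ρ
  have hBt : ∀ l, tsupport (scl x0 ρ (b (σ l))) ⊆ Metric.closedBall x0 ρ :=
    fun l => scl_tsup hρ (hC.tb _)
  have hS : ContDiff ℝ ∞ (fun y => ∑ l, pd l (pd l (scl x0 ρ (b (σ l)))) y) :=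
    ContDiff.sum (fun l _ => pd_contDiff (pd_contDiff (hB l) l) l)
  have hS0 : ∀ x, x ∉ Metric.closedBall x0 ρ →
      x ∉ tsupport (fun y => ∑ l, pd l (pd l (scl x0 ρ (b (σ l)))) y) := by
    intro x hx h
    apply hx
    refine tsup_of_zero Metric.isClosed_closedBall ?_ h
    intro y hy
    exact Finset.sum_eq_zero fun l _ => pd_eq_zero (fun h' => hy (hBt l (tsupport_pd _ l h'))) l
  have hcd : ContDiff ℝ ∞ (fun x => β • cellV b x0 ρ σ x) := by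
    have h1 : ContDiff ℝ ∞ (cellV b x0 ρ σ) := by
      unfold cellV
      exact cd_toLp (fun i => (pd_contDiff (lapS_contDiff (hB i)) i).sub (pd_contDiff hS i))
    exact (contDiff_const (c := β)).smul h1
  have hz : ∀ x, x ∉ Metric.closedBall x0 ρ → β • cellV b x0 ρ σ x = 0 := by
    intro x hx
    have : cellV b x0 ρ σ x = 0 := by
      unfold cellV
      ext i
      show pd i (lapS (scl x0 ρ (b (σ i)))) x
        - pd i (fun y => ∑ l, pd l (pd l (scl x0 ρ (b (σ l)))) y) x = 0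
      rw [pd_eq_zero (hS0 x hx), pd_eq_zero (fun h => hx (hBt i (tsupport_lapS _ h))), sub_zero]
    rw [this, smul_zero]
  have hK := isCompact_closedBall x0 ρ
  have hKc := Metric.isClosed_closedBall (x := x0) (ε := ρ)
  -- the amplitude
  set c : ℝ := 2 * Real.sqrt (ν * β) * ρ⁻¹ with hc
  have hcc : c * c = 4 * ν * β * (ρ⁻¹ * ρ⁻¹) := by
    have := Real.mul_self_sqrt (by positivity : (0 : ℝ) ≤ ν * β)
    rw [hc]
    calc 2 * Real.sqrt (ν * β) * ρ⁻¹ * (2 * Real.sqrt (ν * β) * ρ⁻¹)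
        = 4 * (Real.sqrt (ν * β) * Real.sqrt (ν * β)) * (ρ⁻¹ * ρ⁻¹) := by ring
      _ = _ := by rw [this]; ring
  have ha : ∀ l, ContDiff ℝ ∞ (fun x => c * scl x0 ρ (α (σ l)) x) :=
    fun l => contDiff_const.mul (scl_cd (hC.sα _) x0 ρ)
  have ha0 : ∀ l x, x ∉ Metric.closedBall x0 ρ → c * scl x0 ρ (α (σ l)) x = 0 := by
    intro l x hx
    rw [scl_zero hρ (hC.tα _) hx, mul_zero]
  have hA : ContDiff ℝ ∞ (scl x0 ρ A) := scl_cd hC.sA x0 ρ
  have hw : ContDiff ℝ ∞ (fun x => 2 * ν * β * (ρ⁻¹ * ρ⁻¹ * scl x0 ρ A x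
      + ∑ l, pd l (pd l (scl x0 ρ (b (σ l)))) x)) :=
    contDiff_const.mul ((contDiff_const.mul hA).add hS)
  have hw0 : ∀ x, x ∉ Metric.closedBall x0 ρ → 2 * ν * β * (ρ⁻¹ * ρ⁻¹ * scl x0 ρ A x
      + ∑ l, pd l (pd l (scl x0 ρ (b (σ l)))) x) = 0 := by
    intro x hx
    have h1 : ∑ l, pd l (pd l (scl x0 ρ (b (σ l)))) x = 0 :=
      image_eq_zero_of_notMem_tsupport
        (f := fun y => ∑ l, pd l (pd l (scl x0 ρ (b (σ l)))) y) (hS0 x hx)
    rw [scl_zero hρ hC.tA hx, h1]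
    ring
  refine ⟨fun l x => c * scl x0 ρ (α (σ l)) x, fun x => 2 * ν * β * (ρ⁻¹ * ρ⁻¹ * scl x0 ρ A x
      + ∑ l, pd l (pd l (scl x0 ρ (b (σ l)))) x), fun l => sm_of_zero hK (ha l) (ha0 l),
      sm_of_zero hK hw hw0, sm_of_zero hK hcd hz, tsup_of_zero hKc hz,
      fun l => tsup_of_zero hKc (ha0 l), tsup_of_zero hKc hw0, ?_, ?_, ?_⟩
  · -- divergence
    intro x
    have h1 : ∀ i : Fin 3, pd i (fun y => (β • cellV b x0 ρ σ y : E3) i) x
        = β * (lapS (pd i (pd i (scl x0 ρ (b (σ i))))) x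
          - pd i (pd i (fun y => ∑ l, pd l (pd l (scl x0 ρ (b (σ l)))) y)) x) := by
      intro i
      have h2 : (fun y => (β • cellV b x0 ρ σ y : E3) i)
          = fun y => β * (pd i (lapS (scl x0 ρ (b (σ i)))) y
            - pd i (fun y => ∑ l, pd l (pd l (scl x0 ρ (b (σ l)))) y) y) := rfl
      rw [h2, pd_cmul, pd_sub (pd_contDiff (lapS_contDiff (hB i)) i) (pd_contDiff hS i)]
      congr 2
      rw [lapS_pd (pd_contDiff (hB i) i)]
      have h3 : lapS (pd i (scl x0 ρ (b (σ i)))) = pd i (lapS (scl x0 ρ (b (σ i)))) :=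
        funext (lapS_pd (hB i) i)
      rw [h3]
    rw [Finset.sum_congr rfl (fun i _ => h1 i), ← Finset.mul_sum, Finset.sum_sub_distrib]
    have h4 : ∑ i, pd i (pd i (fun y => ∑ l, pd l (pd l (scl x0 ρ (b (σ l)))) y)) x
        = ∑ l, lapS (pd l (pd l (scl x0 ρ (b (σ l))))) x :=
      lapS_sum _ (fun l _ => pd_contDiff (pd_contDiff (hB l) l) l) x
    rw [h4, sub_self, mul_zero]
  · -- disjoint supports
    intro j l hjl
    have h1 : ∀ l, tsupport (fun x => c * scl x0 ρ (α (σ l)) x)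
        ⊆ (fun x : E3 => ρ⁻¹ • (x - x0)) ⁻¹' tsupport (α (σ l)) := by
      intro l
      refine tsup_of_zero ((isClosed_tsupport _).preimage (by fun_prop)) ?_
      intro x hx
      have h : ρ⁻¹ • (x - x0) ∉ tsupport (α (σ l)) := hx
      have h2 : α (σ l) (ρ⁻¹ • (x - x0)) = 0 := image_eq_zero_of_notMem_tsupport h
      have : scl x0 ρ (α (σ l)) x = 0 := h2
      rw [this, mul_zero]
    have h2 : Disjoint (tsupport (α (σ j))) (tsupport (α (σ l))) :=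
      hC.disj _ _ (fun h => hjl (σ.injective h))
    exact (h2.preimage _).mono (h1 j) (h1 l)
  · -- the equation
    intro x i
    have h1 : (fun y => (c * scl x0 ρ (α (σ i)) y) * (c * scl x0 ρ (α (σ i)) y))
        = fun y => 4 * ν * β * (ρ⁻¹ * ρ⁻¹ * scl x0 ρ A y + lapS (scl x0 ρ (b (σ i))) y) := by
      funext y
      have h2 := hC.eqn (σ i) (ρ⁻¹ • (y - x0))
      have h3 : scl x0 ρ (α (σ i)) y * scl x0 ρ (α (σ i)) y
          = scl x0 ρ A y + scl x0 ρ (lapS (b (σ i))) y := by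
        rw [← sq]
        exact h2
      rw [lapS_scl (hC.sb _)]
      calc _ = (c * c) * (scl x0 ρ (α (σ i)) y * scl x0 ρ (α (σ i)) y) := by ring
        _ = _ := by rw [hcc, h3]; ring
    have h5 := pd_mul (ha i) (ha i) i x
    rw [h1, pd_cmul, pd_add (contDiff_const.mul hA) (lapS_contDiff (hB i))] at h5
    have h6 : pd i (fun x => 2 * ν * β * (ρ⁻¹ * ρ⁻¹ * scl x0 ρ A x
      + ∑ l, pd l (pd l (scl x0 ρ (b (σ l)))) x)) x = 2 * ν * β *
        (pd i (fun y => ρ⁻¹ * ρ⁻¹ * scl x0 ρ A y) x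
          + pd i (fun y => ∑ l, pd l (pd l (scl x0 ρ (b (σ l)))) y) x) := by
      rw [pd_cmul, pd_add (contDiff_const.mul hA) hS]
    rw [h6]
    have h7 : (β • cellV b x0 ρ σ x : E3) i = β * (pd i (lapS (scl x0 ρ (b (σ i)))) x
            - pd i (fun y => ∑ l, pd l (pd l (scl x0 ρ (b (σ l)))) y) x) := rfl
    rw [h7]
    have h8 : (fun x => c * scl x0 ρ (α (σ i)) x) x = c * scl x0 ρ (α (σ i)) x := rfl
    linarith

end Run7.h141.DD
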