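import Pool.Agent.Run7.h744.DD.Iface
import Pool.Agent.Run7.h141.DD.Calc

/-!
Project DD, piece RES: the approximate solution.
-/

set_option autoImplicit false

open MeasureTheory Set
open scoped InnerProductSpace ContDiff

namespace Run7.h141.DD

open H772R2.NS (E3 M3 jac jac_add jac_smul continuous_jac)
open Run7.h744.DD

/-- `e^{-2νλ²t}` -/
noncomputable def e2 (ν lam t : ℝ) : ℝ := Real.exp (-(2 * ν * lam ^ 2 * t))

theorem e2_pos (ν lam t : ℝ) : 0 < e2 ν lam t := Real.exp_pos _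

theorem wt_pos (ν lam t : ℝ) : 0 < wt ν lam t := Real.exp_pos _

theorem e2_le_wt {ν lam t : ℝ} (hν : 0 < ν) (ht : 0 ≤ t) : e2 ν lam t ≤ wt ν lam t := by
  unfold e2 wt
  apply Real.exp_le_exp.mpr
  have : 0 ≤ ν * lam ^ 2 * t := by positivity
  linarith

theorem e2_le_one {ν lam t : ℝ} (hν : 0 < ν) (ht : 0 ≤ t) : e2 ν lam t ≤ 1 := by
  unfold e2
  rw [← Real.exp_zero]
  apply Real.exp_le_exp.mpr
  have : 0 ≤ ν * lam ^ 2 * t := by positivity
  linarith

theorem hasDerivAt_e2 (ν lam t : ℝ) :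
    HasDerivAt (fun s => e2 ν lam s) (-(2 * ν * lam ^ 2) * e2 ν lam t) t := by
  have h1 : HasDerivAt (fun s : ℝ => -(2 * ν * lam ^ 2 * s)) (-(2 * ν * lam ^ 2)) t := by
    have h := (hasDerivAt_id t).const_mul (-(2 * ν * lam ^ 2))
    have hf : (fun s : ℝ => -(2 * ν * lam ^ 2 * s)) = fun s => -(2 * ν * lam ^ 2) * id s := by
      funext s
      simp only [id]
      ring
    rw [hf]
    rw [mul_one] at h
    exact h
  have h2 := h1.exp
  unfold e2
  convert h2 using 1
  ring

theorem e2_cd (ν lam : ℝ) : ContDiff ℝ ∞ (fun s => e2 ν lam s) := by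
  unfold e2
  fun_prop

theorem wt_at {ν lam : ℝ} (hν : 0 < ν) (hl : 1 ≤ lam) :
    lam ^ 2 * wt ν lam (1 / lam) ≤ 8 / ν ^ 2 := by
  have hl0 : 0 < lam := by linarith
  unfold wt
  have h1 : ν * lam ^ 2 * (1 / lam) / 2 = ν * lam / 2 := by
    field_simp
  rw [h1]
  have h2 : (ν * lam / 2) ^ 2 / 2 ≤ Real.exp (ν * lam / 2) :=
    Real.pow_div_factorial_le_exp (n := 2) (x := ν * lam / 2) (by positivity)
  rw [Real.exp_neg, ← div_eq_mul_inv, div_le_div_iff₀ (Real.exp_pos _) (by positivity)]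
  nlinarith

theorem mnf_apply (ν lam : ℝ) (U0 V : E3 → E3) (t : ℝ) (y : E3) (i : Fin 3) :
    mnf ν lam U0 V t y i = U0 y i + e2 ν lam t * V y i := rfl

theorem mnf_joint {ν lam : ℝ} {U0 V : E3 → E3} (hU : ContDiff ℝ ∞ U0) (hV : ContDiff ℝ ∞ V) :
    ContDiff ℝ ∞ (fun p : ℝ × E3 => mnf ν lam U0 V p.1 p.2) := by
  have h1 : ContDiff ℝ ∞ (fun p : ℝ × E3 => e2 ν lam p.1) := (e2_cd ν lam).comp contDiff_fst
  exact (hU.comp contDiff_snd).add (h1.smul (hV.comp contDiff_snd))

theorem cur_apply (ν lam : ℝ) (U0 V : E3 → E3) (a : Fin 3 → E3 → ℝ) (t : ℝ) (y : E3)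
    (i : Fin 3) :
    cur ν lam U0 V a t y i = mnf ν lam U0 V t y i + ∑ l, pkt ν lam U0 V (a l) l t y i := by
  unfold cur
  rw [PiLp.add_apply]
  simp only [Fin.sum_univ_three, PiLp.add_apply]

/-- The terms of the residual of the mean flow. -/
noncomputable def P0 (ν : ℝ) (U0 : E3 → E3) (x : E3) : E3 :=
  WithLp.toLp 2 fun i => ν * lapS (fun y => U0 y i) x - ∑ j, U0 x j * pd j (fun y => U0 y i) x

noncomputable def P1 (ν : ℝ) (U0 V : E3 → E3) (x : E3) : E3 :=
  WithLp.toLp 2 fun i => ν * lapS (fun y => V y i) x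
    - ∑ j, (U0 x j * pd j (fun y => V y i) x + V x j * pd j (fun y => U0 y i) x)

noncomputable def P2 (V : E3 → E3) (x : E3) : E3 :=
  WithLp.toLp 2 fun i => -∑ j, V x j * pd j (fun y => V y i) x

theorem P0_cd (ν : ℝ) {U0 : E3 → E3} (hU : ContDiff ℝ ∞ U0) : ContDiff ℝ ∞ (P0 ν U0) := by
  unfold P0
  refine cd_toLp (fun i => ?_)
  exact (contDiff_const.mul (lapS_contDiff (cd_apply hU i))).sub
    (ContDiff.sum fun j _ => (cd_apply hU j).mul (pd_contDiff (cd_apply hU i) j))

theorem P1_cd (ν : ℝ) {U0 V : E3 → E3} (hU : ContDiff ℝ ∞ U0) (hV : ContDiff ℝ ∞ V) :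
    ContDiff ℝ ∞ (P1 ν U0 V) := by
  unfold P1
  refine cd_toLp (fun i => ?_)
  exact (contDiff_const.mul (lapS_contDiff (cd_apply hV i))).sub
    (ContDiff.sum fun j _ => ((cd_apply hU j).mul (pd_contDiff (cd_apply hV i) j)).add
      ((cd_apply hV j).mul (pd_contDiff (cd_apply hU i) j)))

theorem P2_cd {V : E3 → E3} (hV : ContDiff ℝ ∞ V) : ContDiff ℝ ∞ (P2 V) := by
  unfold P2
  refine cd_toLp (fun i => ?_)
  exact (ContDiff.sum fun j _ => (cd_apply hV j).mul (pd_contDiff (cd_apply hV i) j)).neg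

theorem bd_of_zero {F : Type} [NormedAddCommGroup F] {K : Set E3} (hK : IsCompact K)
    {f : E3 → F} (hf : Continuous f) (h : ∀ x, x ∉ K → f x = 0) :
    ∃ C : ℝ, 0 ≤ C ∧ ∀ x, ‖f x‖ ≤ C := by
  obtain ⟨C, hC⟩ := hK.exists_bound_of_continuousOn hf.continuousOn
  refine ⟨max C 0, le_max_right _ _, fun x => ?_⟩
  by_cases hx : x ∈ K
  · exact (hC x hx).trans (le_max_left _ _)
  · rw [h x hx, norm_zero]
    exact le_max_right _ _

theorem comp_tsup {f : E3 → E3} {x : E3} (hx : x ∉ tsupport f) (i : Fin 3) :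
    x ∉ tsupport (fun y => f y i) := by
  intro h
  apply hx
  refine closure_mono ?_ h
  intro y hy hy0
  apply hy
  show f y i = 0
  rw [hy0]
  rfl

theorem P_zero {ν : ℝ} {U0 V : E3 → E3} {x : E3} (h0 : x ∉ tsupport U0) (h1 : x ∉ tsupport V) :
    P0 ν U0 x = 0 ∧ P1 ν U0 V x = 0 ∧ P2 V x = 0 := by
  have a1 : ∀ i j, pd j (fun y => U0 y i) x = 0 := fun i j => pd_eq_zero (comp_tsup h0 i) j
  have a2 : ∀ i j, pd j (fun y => V y i) x = 0 := fun i j => pd_eq_zero (comp_tsup h1 i) j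
  have a3 : ∀ i, lapS (fun y => U0 y i) x = 0 := fun i => lapS_eq_zero (comp_tsup h0 i)
  have a4 : ∀ i, lapS (fun y => V y i) x = 0 := fun i => lapS_eq_zero (comp_tsup h1 i)
  refine ⟨?_, ?_, ?_⟩
  · ext i
    show ν * lapS (fun y => U0 y i) x - ∑ j, U0 x j * pd j (fun y => U0 y i) x = 0
    simp [a1, a3]
  · ext i
    show ν * lapS (fun y => V y i) x
      - ∑ j, (U0 x j * pd j (fun y => V y i) x + V x j * pd j (fun y => U0 y i) x) = 0
    simp [a1, a2, a4]
  · ext i
    show -∑ j, V x j * pd j (fun y => V y i) x = 0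
    simp [a2]

theorem mean_eq (ν lam : ℝ) {U0 V : E3 → E3} (hU : ContDiff ℝ ∞ U0) (hV : ContDiff ℝ ∞ V)
    (t : ℝ) (x : E3) (i : Fin 3) :
    ν * lapS (fun y => mnf ν lam U0 V t y i) x
      - ∑ j, mnf ν lam U0 V t x j * pd j (fun y => mnf ν lam U0 V t y i) x
    = P0 ν U0 x i + e2 ν lam t * P1 ν U0 V x i + e2 ν lam t * e2 ν lam t * P2 V x i := by
  have hc : ContDiff ℝ ∞ (fun y => e2 ν lam t * V y i) := contDiff_const.mul (cd_apply hV i)
  have h1 : lapS (fun y => mnf ν lam U0 V t y i) x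
      = lapS (fun y => U0 y i) x + e2 ν lam t * lapS (fun y => V y i) x := by
    have : (fun y => mnf ν lam U0 V t y i) = fun y => U0 y i + e2 ν lam t * V y i := rfl
    rw [this, lapS_add (cd_apply hU i) hc, lapS_cmul]
  have h2 : ∀ j, pd j (fun y => mnf ν lam U0 V t y i) x
      = pd j (fun y => U0 y i) x + e2 ν lam t * pd j (fun y => V y i) x := by
    intro j
    have : (fun y => mnf ν lam U0 V t y i) = fun y => U0 y i + e2 ν lam t * V y i := rfl
    rw [this, pd_add (cd_apply hU i) hc, pd_cmul]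
  have h3 : P0 ν U0 x i = ν * lapS (fun y => U0 y i) x
    - ∑ j, U0 x j * pd j (fun y => U0 y i) x := rfl
  have h4 : P1 ν U0 V x i = ν * lapS (fun y => V y i) x
    - ∑ j, (U0 x j * pd j (fun y => V y i) x + V x j * pd j (fun y => U0 y i) x) := rfl
  have h5 : P2 V x i = -∑ j, V x j * pd j (fun y => V y i) x := rfl
  rw [h1, h3, h4, h5]
  simp only [h2]
  simp only [mnf_apply, Fin.sum_univ_three]
  ring

theorem cross (P D : Fin 3 → ℝ) (h : ∀ l k, l ≠ k → P l * D k = 0) :
    (∑ l, P l) * (∑ l, D l) = ∑ l, P l * D l := by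
  rw [Finset.sum_mul_sum]
  refine Finset.sum_congr rfl fun l _ => ?_
  rw [Finset.sum_eq_single l (fun k _ hk => h l k (Ne.symm hk)) (fun h => absurd (Finset.mem_univ l) h)]

theorem resid_eq {ν lam : ℝ} {U0 V : E3 → E3} {a : Fin 3 → E3 → ℝ} {w : E3 → ℝ}
    (hU : ContDiff ℝ ∞ U0) (hV : ContDiff ℝ ∞ V)
    (hp : ∀ l, SmF (tsupport (a l)) (pkt ν lam U0 V (a l) l))
    (hd : ∀ j l, j ≠ l → Disjoint (tsupport (a j)) (tsupport (a l)))
    (he : ∀ x i, -(2 * ν * V x i) + a i x * pd i (a i) x = pd i w x) (t : ℝ) (x : E3) :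
    resid ν (cur ν lam U0 V a) (prs ν lam w) t x
      = (P0 ν U0 x + e2 ν lam t • P1 ν U0 V x + (e2 ν lam t * e2 ν lam t) • P2 V x)
        + ∑ l, pke ν lam U0 V (a l) l t x := by
  have hpx : ∀ l i, ContDiff ℝ ∞ (fun y => pkt ν lam U0 V (a l) l t y i) :=
    fun l i => cd_apply (joint_x (hp l).smooth t) i
  have hmx : ∀ i, ContDiff ℝ ∞ (fun y => mnf ν lam U0 V t y i) :=
    fun i => cd_apply (joint_x (mnf_joint hU hV) t) i
  have hpt : ∀ l i, DifferentiableAt ℝ (fun s => pkt ν lam U0 V (a l) l s x i) t :=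
    fun l i => ((joint_t (g := fun s x => pkt ν lam U0 V (a l) l s x i)
      (joint_apply (hp l).smooth i) x).differentiable (by simp)) t
  ext i
  have c1 : lapS (fun y => cur ν lam U0 V a t y i) x
      = lapS (fun y => mnf ν lam U0 V t y i) x
        + ∑ l, lapS (fun y => pkt ν lam U0 V (a l) l t y i) x := by
    have : (fun y => cur ν lam U0 V a t y i)
        = fun y => mnf ν lam U0 V t y i + ∑ l, pkt ν lam U0 V (a l) l t y i :=
      funext fun y => cur_apply ν lam U0 V a t y i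
    rw [this, lapS_add (hmx i) (ContDiff.sum fun l _ => hpx l i), lapS_sum _ (fun l _ => hpx l i)]
  have c2 : ∀ j, pd j (fun y => cur ν lam U0 V a t y i) x
      = pd j (fun y => mnf ν lam U0 V t y i) x
        + ∑ l, pd j (fun y => pkt ν lam U0 V (a l) l t y i) x := by
    intro j
    have : (fun y => cur ν lam U0 V a t y i)
        = fun y => mnf ν lam U0 V t y i + ∑ l, pkt ν lam U0 V (a l) l t y i :=
      funext fun y => cur_apply ν lam U0 V a t y i
    rw [this, pd_add (hmx i) (ContDiff.sum fun l _ => hpx l i), pd_sum _ (fun l _ => hpx l i)]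
  have c3 : deriv (fun s => cur ν lam U0 V a s x i) t
      = -(2 * ν * lam ^ 2) * e2 ν lam t * V x i
        + ∑ l, deriv (fun s => pkt ν lam U0 V (a l) l s x i) t := by
    have h1 : (fun s => cur ν lam U0 V a s x i)
        = fun s => (U0 x i + e2 ν lam s * V x i) + ∑ l, pkt ν lam U0 V (a l) l s x i :=
      funext fun s => cur_apply ν lam U0 V a s x i
    rw [h1]
    have h2 : HasDerivAt (fun s => U0 x i + e2 ν lam s * V x i)
        (-(2 * ν * lam ^ 2) * e2 ν lam t * V x i) t :=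
      ((hasDerivAt_e2 ν lam t).mul_const (V x i)).const_add (U0 x i)
    have h3 : HasDerivAt (fun s => ∑ l, pkt ν lam U0 V (a l) l s x i)
        (∑ l, deriv (fun s => pkt ν lam U0 V (a l) l s x i) t) t :=
      HasDerivAt.fun_sum fun l _ => (hpt l i).hasDerivAt
    exact (h2.add h3).deriv
  have c4 : pd i (prs ν lam w t) x = lam ^ 2 * e2 ν lam t * pd i w x := by
    have : prs ν lam w t = fun y => lam ^ 2 * e2 ν lam t * w y := rfl
    rw [this, pd_cmul]
  have hcr : ∀ j, (∑ l, pkt ν lam U0 V (a l) l t x j)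
      * (∑ l, pd j (fun y => pkt ν lam U0 V (a l) l t y i) x)
      = ∑ l, pkt ν lam U0 V (a l) l t x j * pd j (fun y => pkt ν lam U0 V (a l) l t y i) x := by
    intro j
    refine cross _ _ ?_
    intro l k hlk
    by_cases hx : x ∈ tsupport (a l)
    · have h1 : x ∉ tsupport (a k) := fun h => (disjoint_left.mp (hd l k hlk)) hx h
      have h2 : x ∉ tsupport (fun y => pkt ν lam U0 V (a k) k t y i) := by
        intro h
        apply h1
        refine closure_minimal ?_ (isClosed_tsupport (a k)) h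
        intro y hy
        by_contra hcon
        apply hy
        show pkt ν lam U0 V (a k) k t y i = 0
        rw [(hp k).supp t y hcon]
        rfl
      rw [pd_eq_zero h2, mul_zero]
    · have : pkt ν lam U0 V (a l) l t x j = 0 := by
        rw [(hp l).supp t x hx]
        rfl
      rw [this, zero_mul]
  -- the sum of the residuals of the packets
  set X : Fin 3 → ℝ := fun l => lam ^ 2 * e2 ν lam t * (a l x * pd l (a l) x) with hX
  set R : Fin 3 → ℝ := fun l => ν * lapS (fun y => pkt ν lam U0 V (a l) l t y i) x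
    - ∑ j, pkt ν lam U0 V (a l) l t x j * pd j (fun y => pkt ν lam U0 V (a l) l t y i) x
    - ∑ j, mnf ν lam U0 V t x j * pd j (fun y => pkt ν lam U0 V (a l) l t y i) x
    - ∑ j, pkt ν lam U0 V (a l) l t x j * pd j (fun y => mnf ν lam U0 V t y i) x
    - deriv (fun s => pkt ν lam U0 V (a l) l s x i) t with hR
  have hpk : ∀ l, pke ν lam U0 V (a l) l t x i = (if i = l then X l else 0) + R l := by
    intro l
    rw [hX, hR]
    show (if i = l then lam ^ 2 * Real.exp (-(2 * ν * lam ^ 2 * t)) * (a l x * pd l (a l) x) else 0)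
      + ν * lapS (fun y => pkt ν lam U0 V (a l) l t y i) x
      - ∑ j, pkt ν lam U0 V (a l) l t x j * pd j (fun y => pkt ν lam U0 V (a l) l t y i) x
      - ∑ j, mnf ν lam U0 V t x j * pd j (fun y => pkt ν lam U0 V (a l) l t y i) x
      - ∑ j, pkt ν lam U0 V (a l) l t x j * pd j (fun y => mnf ν lam U0 V t y i) x
      - deriv (fun s => pkt ν lam U0 V (a l) l s x i) t = _
    simp only [e2]
    ring
  have hsum : (∑ l, pke ν lam U0 V (a l) l t x : E3) i = X i + ∑ l, R l := by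
    have h1 : (∑ l, pke ν lam U0 V (a l) l t x : E3) i
        = ∑ l, (pke ν lam U0 V (a l) l t x i) := by
      simp only [Fin.sum_univ_three, PiLp.add_apply]
    rw [h1, Finset.sum_congr rfl (fun l _ => hpk l), Finset.sum_add_distrib]
    congr 1
    simp
  rw [PiLp.add_apply, hsum]
  have hm := mean_eq ν lam hU hV t x i
  have hP : (P0 ν U0 x + e2 ν lam t • P1 ν U0 V x + (e2 ν lam t * e2 ν lam t) • P2 V x : E3) i
      = P0 ν U0 x i + e2 ν lam t * P1 ν U0 V x i + e2 ν lam t * e2 ν lam t * P2 V x i := rfl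
  rw [hP, ← hm]
  show ν * lapS (fun y => cur ν lam U0 V a t y i) x
    - ∑ j, cur ν lam U0 V a t x j * pd j (fun y => cur ν lam U0 V a t y i) x
    - deriv (fun s => cur ν lam U0 V a s x i) t + pd i (prs ν lam w t) x = _
  rw [c1, c3, c4, ← he x i]
  have hj : ∀ j, cur ν lam U0 V a t x j * pd j (fun y => cur ν lam U0 V a t y i) x
      = mnf ν lam U0 V t x j * pd j (fun y => mnf ν lam U0 V t y i) x
      + mnf ν lam U0 V t x j * (∑ l, pd j (fun y => pkt ν lam U0 V (a l) l t y i) x)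
      + (∑ l, pkt ν lam U0 V (a l) l t x j) * pd j (fun y => mnf ν lam U0 V t y i) x
      + ∑ l, pkt ν lam U0 V (a l) l t x j * pd j (fun y => pkt ν lam U0 V (a l) l t y i) x := by
    intro j
    rw [c2, cur_apply, ← hcr j]
    ring
  simp only [hj, hX, hR, Fin.sum_univ_three]
  ring

theorem pke_joint {ν lam : ℝ} {U0 V : E3 → E3} {a : E3 → ℝ} (l : Fin 3)
    (hU : ContDiff ℝ ∞ U0) (hV : ContDiff ℝ ∞ V)
    (hp : ContDiff ℝ ∞ (fun p : ℝ × E3 => pkt ν lam U0 V a l p.1 p.2))
    (ha : ContDiff ℝ ∞ a) :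
    ContDiff ℝ ∞ (fun p : ℝ × E3 => pke ν lam U0 V a l p.1 p.2) := by
  have hm := mnf_joint (ν := ν) (lam := lam) hU hV
  have hpi : ∀ i, ContDiff ℝ ∞ (fun p : ℝ × E3 => pkt ν lam U0 V a l p.1 p.2 i) :=
    fun i => joint_apply hp i
  have hmi : ∀ i, ContDiff ℝ ∞ (fun p : ℝ × E3 => mnf ν lam U0 V p.1 p.2 i) :=
    fun i => joint_apply hm i
  have hpd : ∀ i j, ContDiff ℝ ∞ (fun p : ℝ × E3 => pd j (fun y => pkt ν lam U0 V a l p.1 y i) p.2) :=
    fun i j => pd_joint (g := fun t y => pkt ν lam U0 V a l t y i) (hpi i) j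
  have hmd : ∀ i j, ContDiff ℝ ∞ (fun p : ℝ × E3 => pd j (fun y => mnf ν lam U0 V p.1 y i) p.2) :=
    fun i j => pd_joint (g := fun t y => mnf ν lam U0 V t y i) (hmi i) j
  have hlp : ∀ i, ContDiff ℝ ∞ (fun p : ℝ × E3 => lapS (fun y => pkt ν lam U0 V a l p.1 y i) p.2) :=
    fun i => lapS_joint (g := fun t y => pkt ν lam U0 V a l t y i) (hpi i)
  have hdt : ∀ i, ContDiff ℝ ∞ (fun p : ℝ × E3 => deriv (fun s => pkt ν lam U0 V a l s p.2 i) p.1) :=
    fun i => deriv_joint (g := fun t y => pkt ν lam U0 V a l t y i) (hpi i)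
  have hX : ContDiff ℝ ∞ (fun p : ℝ × E3 => lam ^ 2 * Real.exp (-(2 * ν * lam ^ 2 * p.1))
      * (a p.2 * pd l a p.2)) := by
    have h1 : ContDiff ℝ ∞ (fun p : ℝ × E3 => lam ^ 2 * Real.exp (-(2 * ν * lam ^ 2 * p.1))) := by
      fun_prop
    exact h1.mul ((ha.comp contDiff_snd).mul ((pd_contDiff ha l).comp contDiff_snd))
  unfold pke
  refine joint_toLp (G := fun i t x =>
    (if i = l then lam ^ 2 * Real.exp (-(2 * ν * lam ^ 2 * t)) * (a x * pd l a x) else 0)
    + ν * lapS (fun y => pkt ν lam U0 V a l t y i) x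
    - ∑ j, pkt ν lam U0 V a l t x j * pd j (fun y => pkt ν lam U0 V a l t y i) x
    - ∑ j, mnf ν lam U0 V t x j * pd j (fun y => pkt ν lam U0 V a l t y i) x
    - ∑ j, pkt ν lam U0 V a l t x j * pd j (fun y => mnf ν lam U0 V t y i) x
    - deriv (fun s => pkt ν lam U0 V a l s x i) t) (fun i => ?_)
  refine ContDiff.sub (ContDiff.sub (ContDiff.sub (ContDiff.sub (ContDiff.add ?_ ?_) ?_) ?_) ?_)
    (hdt i)
  · by_cases h : i = l
    · simp only [h, if_true]
      exact hX
    · simp only [h, if_false]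
      exact contDiff_const
  · exact contDiff_const.mul (hlp i)
  · exact ContDiff.sum fun j _ => (hpi j).mul (hpd i j)
  · exact ContDiff.sum fun j _ => (hmi j).mul (hpd i j)
  · exact ContDiff.sum fun j _ => (hpi j).mul (hmd i j)

theorem norm_sum3 {F : Type} [NormedAddCommGroup F] {f : Fin 3 → F} {Q : Fin 3 → ℝ} {b : ℝ}
    (h : ∀ l, ‖f l‖ ≤ Q l * b) : ‖∑ l, f l‖ ≤ (∑ l, Q l) * b := by
  refine (norm_sum_le _ _).trans ?_
  rw [Finset.sum_mul]
  exact Finset.sum_le_sum fun l _ => h l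

theorem t_RES (hPK : S_PK) (hPS : S_PS) : S_RES := by
  intro ν Kc U0 V a w hν hKc hU hV ha hw hUK hVK haK hwK hUd hVd hdis heq
  choose Q hQ0 hQ using fun l : Fin 3 => hPK ν U0 V (a l) l hν hU hV (ha l)
  -- points off `Kc`
  have zU : ∀ x, x ∉ Kc → x ∉ tsupport U0 := fun x hx h => hx (hUK h)
  have zV : ∀ x, x ∉ Kc → x ∉ tsupport V := fun x hx h => hx (hVK h)
  have U00 : ∀ x, x ∉ Kc → U0 x = 0 := fun x hx => image_eq_zero_of_notMem_tsupport (zU x hx)
  have V00 : ∀ x, x ∉ Kc → V x = 0 := fun x hx => image_eq_zero_of_notMem_tsupport (zV x hx)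
  have jU0 : ∀ x, x ∉ Kc → jac U0 x = 0 := fun x hx => by
    by_contra h
    exact zU x hx (H772R2.NS.tsupport_jac_subset (subset_closure h))
  have jV0 : ∀ x, x ∉ Kc → jac V x = 0 := fun x hx => by
    by_contra h
    exact zV x hx (H772R2.NS.tsupport_jac_subset (subset_closure h))
  obtain ⟨CU, hCU0, hCU⟩ := bd_of_zero hKc hU.smooth.continuous U00
  obtain ⟨CV, hCV0, hCV⟩ := bd_of_zero hKc hV.smooth.continuous V00
  obtain ⟨JU, hJU0, hJU⟩ := bd_of_zero hKc (continuous_jac hU.smooth) jU0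
  obtain ⟨JV, hJV0, hJV⟩ := bd_of_zero hKc (continuous_jac hV.smooth) jV0
  obtain ⟨C0, hC00, hC0⟩ := bd_of_zero hKc (P0_cd ν hU.smooth).continuous
    (fun x hx => (P_zero (ν := ν) (zU x hx) (zV x hx)).1)
  obtain ⟨C1, hC10, hC1⟩ := bd_of_zero hKc (P1_cd ν hU.smooth hV.smooth).continuous
    (fun x hx => (P_zero (ν := ν) (zU x hx) (zV x hx)).2.1)
  obtain ⟨C2, hC20, hC2⟩ := bd_of_zero hKc (P2_cd hV.smooth).continuous
    (fun x hx => (P_zero (ν := ν) (zU x hx) (zV x hx)).2.2)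
  set q : ℝ := ∑ l, Q l with hq
  have hq0 : 0 < q := Finset.sum_pos (fun l _ => hQ0 l) ⟨0, Finset.mem_univ _⟩
  set D : ℝ := 8 / ν ^ 2 with hD
  have hD0 : 0 < D := by positivity
  refine ⟨q + CU + CV + 2 * ν * CV + C0 + C1 + C2 + 2 * ν * (C1 + 2 * C2) + (CV + q) * D
    + (JU + JV + q * D), by positivity, ?_⟩
  intro lam hlam
  have hl0 : 0 < lam := by linarith
  have hPSl : ∀ l, SmF (tsupport (a l)) (pkt ν lam U0 V (a l) l) :=
    fun l => (hPS ν lam U0 V (a l) l hU hV (ha l)).1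
  have hdiv : ∀ l t x, ∑ i, pd i (fun y => pkt ν lam U0 V (a l) l t y i) x = 0 :=
    fun l => (hPS ν lam U0 V (a l) l hU hV (ha l)).2
  have hmj := mnf_joint (ν := ν) (lam := lam) hU.smooth hV.smooth
  have hpt : ∀ l t x, DifferentiableAt ℝ (fun s => pkt ν lam U0 V (a l) l s x) t :=
    fun l t x => ((joint_t (hPSl l).smooth x).differentiable (by simp)) t
  have hpket : ∀ l t x, DifferentiableAt ℝ (fun s => pke ν lam U0 V (a l) l s x) t :=
    fun l t x => ((joint_t (pke_joint l hU.smooth hV.smooth (hPSl l).smooth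
      (ha l).smooth) x).differentiable (by simp)) t
  -- the weights
  have hew : ∀ t, 0 ≤ t → lam ^ 2 * e2 ν lam t ≤ lam ^ 3 * wt ν lam t := by
    intro t ht
    have h1 := e2_le_wt (lam := lam) hν ht
    have h2 : lam ^ 2 ≤ lam ^ 3 := pow_le_pow_right₀ hlam (by norm_num)
    exact mul_le_mul h2 h1 (e2_pos _ _ _).le (by positivity)
  have hcur : ∀ t x, cur ν lam U0 V a t x
      = U0 x + e2 ν lam t • V x + ∑ l, pkt ν lam U0 V (a l) l t x := fun t x => rfl
  refine ⟨⟨?_, ?_⟩, ⟨?_, ?_⟩, ?_, ?_, ?_⟩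
  · -- smoothness of `cur`
    unfold cur
    exact hmj.add (ContDiff.sum fun l _ => (hPSl l).smooth)
  · intro t x hx
    rw [hcur, U00 x hx, V00 x hx, smul_zero, zero_add, zero_add]
    exact Finset.sum_eq_zero fun l _ => (hPSl l).supp t x (fun h => hx (haK l h))
  · -- smoothness of the pressure
    unfold prs
    have h1 : ContDiff ℝ ∞ (fun p : ℝ × E3 => lam ^ 2 * Real.exp (-(2 * ν * lam ^ 2 * p.1))) := by
      fun_prop
    exact h1.mul (hw.smooth.comp contDiff_snd)
  · intro t x hx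
    have : w x = 0 := image_eq_zero_of_notMem_tsupport (fun h => hx (hwK h))
    unfold prs
    rw [this, mul_zero]
  · -- divergence
    intro t x
    have h1 : ∀ i, pd i (fun y => cur ν lam U0 V a t y i) x
        = pd i (fun y => U0 y i) x + e2 ν lam t * pd i (fun y => V y i) x
          + ∑ l, pd i (fun y => pkt ν lam U0 V (a l) l t y i) x := by
      intro i
      have h2 : (fun y => cur ν lam U0 V a t y i)
          = fun y => (U0 y i + e2 ν lam t * V y i) + ∑ l, pkt ν lam U0 V (a l) l t y i :=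
        funext fun y => cur_apply ν lam U0 V a t y i
      have hc : ContDiff ℝ ∞ (fun y => e2 ν lam t * V y i) :=
        contDiff_const.mul (cd_apply hV.smooth i)
      have hpx : ∀ l, ContDiff ℝ ∞ (fun y => pkt ν lam U0 V (a l) l t y i) :=
        fun l => cd_apply (joint_x (hPSl l).smooth t) i
      rw [h2, pd_add ((cd_apply hU.smooth i).add hc) (ContDiff.sum fun l _ => hpx l),
        pd_add (cd_apply hU.smooth i) hc, pd_cmul, pd_sum _ (fun l _ => hpx l)]
    rw [Finset.sum_congr rfl (fun i _ => h1 i), Finset.sum_add_distrib, Finset.sum_add_distrib,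
      ← Finset.mul_sum, hUd x, hVd x, Finset.sum_comm, mul_zero, zero_add, zero_add]
    exact Finset.sum_eq_zero fun l _ => hdiv l t x
  · -- the bounds
    intro t ht x
    have he1 := e2_le_one (lam := lam) hν ht
    have he0 := (e2_pos ν lam t).le
    have hw0 := (wt_pos ν lam t).le
    have hA : 0 ≤ lam * wt ν lam t := by positivity
    have hB : 0 ≤ lam ^ 3 * wt ν lam t := by positivity
    refine ⟨?_, ?_, ?_, ?_⟩
    · rw [hcur]
      have h1 : ‖∑ l, pkt ν lam U0 V (a l) l t x‖ ≤ q * (lam * wt ν lam t) :=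
        norm_sum3 fun l => (hQ l lam hlam t ht x).2.2.1
      have h2 : ‖e2 ν lam t • V x‖ ≤ CV := by
        rw [norm_smul, Real.norm_eq_abs, abs_of_nonneg he0]
        calc e2 ν lam t * ‖V x‖ ≤ 1 * CV := mul_le_mul he1 (hCV x) (norm_nonneg _) zero_le_one
          _ = CV := one_mul _
      have h3 := norm_add_le (U0 x + e2 ν lam t • V x) (∑ l, pkt ν lam U0 V (a l) l t x)
      have h4 := norm_add_le (U0 x) (e2 ν lam t • V x)
      have h5 := hCU x
      have hr : 0 ≤ (CU + CV + 2 * ν * CV + C0 + C1 + C2 + 2 * ν * (C1 + 2 * C2) + (CV + q) * D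
        + (JU + JV + q * D)) * (lam * wt ν lam t) := by positivity
      have hr2 : 0 ≤ q + 2 * ν * CV + C0 + C1 + C2 + 2 * ν * (C1 + 2 * C2) + (CV + q) * D
        + (JU + JV + q * D) := by positivity
      nlinarith
    · have h1 : HasDerivAt (fun s => cur ν lam U0 V a s x)
          ((-(2 * ν * lam ^ 2) * e2 ν lam t) • V x
            + ∑ l, deriv (fun s => pkt ν lam U0 V (a l) l s x) t) t := by
        have h2 : HasDerivAt (fun s => U0 x + e2 ν lam s • V x)
            ((-(2 * ν * lam ^ 2) * e2 ν lam t) • V x) t :=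
          ((hasDerivAt_e2 ν lam t).smul_const (V x)).const_add (U0 x)
        have h3 : HasDerivAt (fun s => ∑ l, pkt ν lam U0 V (a l) l s x)
            (∑ l, deriv (fun s => pkt ν lam U0 V (a l) l s x) t) t :=
          HasDerivAt.fun_sum fun l _ => (hpt l t x).hasDerivAt
        exact h2.add h3
      rw [h1.deriv]
      have h2 : ‖∑ l, deriv (fun s => pkt ν lam U0 V (a l) l s x) t‖
          ≤ q * (lam ^ 3 * wt ν lam t) :=
        norm_sum3 fun l => (hQ l lam hlam t ht x).2.2.2.1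
      have h3 : ‖(-(2 * ν * lam ^ 2) * e2 ν lam t) • V x‖ ≤ 2 * ν * CV * (lam ^ 3 * wt ν lam t) := by
        rw [norm_smul, Real.norm_eq_abs, abs_mul, abs_neg, abs_of_nonneg he0,
          abs_of_nonneg (by positivity : (0 : ℝ) ≤ 2 * ν * lam ^ 2)]
        have h4 := hew t ht
        calc 2 * ν * lam ^ 2 * e2 ν lam t * ‖V x‖
            = 2 * ν * (lam ^ 2 * e2 ν lam t) * ‖V x‖ := by ring
          _ ≤ 2 * ν * (lam ^ 3 * wt ν lam t) * CV := by
              refine mul_le_mul ?_ (hCV x) (norm_nonneg _) (by positivity)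
              exact mul_le_mul_of_nonneg_left h4 (by positivity)
          _ = _ := by ring
      have h5 := norm_add_le ((-(2 * ν * lam ^ 2) * e2 ν lam t) • V x)
        (∑ l, deriv (fun s => pkt ν lam U0 V (a l) l s x) t)
      have hr : 0 ≤ (CU + CV + C0 + C1 + C2 + 2 * ν * (C1 + 2 * C2) + (CV + q) * D
        + (JU + JV + q * D)) * (lam ^ 3 * wt ν lam t) := by positivity
      have hr2 : 0 ≤ q + CU + CV + 2 * ν * CV + C0 + C1 + C2 + 2 * ν * (C1 + 2 * C2)
        + (CV + q) * D + (JU + JV + q * D) := by positivity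
      nlinarith
    · rw [resid_eq hU.smooth hV.smooth hPSl hdis heq t x]
      have h1 : ‖∑ l, pke ν lam U0 V (a l) l t x‖ ≤ q * (lam * wt ν lam t) :=
        norm_sum3 fun l => (hQ l lam hlam t ht x).1
      have h2 : ‖e2 ν lam t • P1 ν U0 V x‖ ≤ C1 := by
        rw [norm_smul, Real.norm_eq_abs, abs_of_nonneg he0]
        calc e2 ν lam t * ‖P1 ν U0 V x‖ ≤ 1 * C1 :=
              mul_le_mul he1 (hC1 x) (norm_nonneg _) zero_le_one
          _ = C1 := one_mul _
      have h2' : ‖(e2 ν lam t * e2 ν lam t) • P2 V x‖ ≤ C2 := by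
        rw [norm_smul, Real.norm_eq_abs, abs_of_nonneg (mul_nonneg he0 he0)]
        calc e2 ν lam t * e2 ν lam t * ‖P2 V x‖ ≤ 1 * C2 :=
              mul_le_mul (by nlinarith) (hC2 x) (norm_nonneg _) zero_le_one
          _ = C2 := one_mul _
      have h3 := norm_add_le (P0 ν U0 x + e2 ν lam t • P1 ν U0 V x
        + (e2 ν lam t * e2 ν lam t) • P2 V x) (∑ l, pke ν lam U0 V (a l) l t x)
      have h4 := norm_add_le (P0 ν U0 x + e2 ν lam t • P1 ν U0 V x)
        ((e2 ν lam t * e2 ν lam t) • P2 V x)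
      have h4' := norm_add_le (P0 ν U0 x) (e2 ν lam t • P1 ν U0 V x)
      have h5 := hC0 x
      have hr : 0 ≤ (CU + CV + 2 * ν * CV + C0 + C1 + C2 + 2 * ν * (C1 + 2 * C2) + (CV + q) * D
        + (JU + JV + q * D)) * (lam * wt ν lam t) := by positivity
      have hr2 : 0 ≤ q + CU + CV + 2 * ν * CV + 2 * ν * (C1 + 2 * C2) + (CV + q) * D
        + (JU + JV + q * D) := by positivity
      nlinarith
    · have h0 : (fun s => resid ν (cur ν lam U0 V a) (prs ν lam w) s x)
          = fun s => (P0 ν U0 x + e2 ν lam s • P1 ν U0 V x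
            + (e2 ν lam s * e2 ν lam s) • P2 V x) + ∑ l, pke ν lam U0 V (a l) l s x :=
        funext fun s => resid_eq hU.smooth hV.smooth hPSl hdis heq s x
      rw [h0]
      have he := hasDerivAt_e2 ν lam t
      have h1 : HasDerivAt (fun s => (P0 ν U0 x + e2 ν lam s • P1 ν U0 V x
            + (e2 ν lam s * e2 ν lam s) • P2 V x) + ∑ l, pke ν lam U0 V (a l) l s x)
          (((-(2 * ν * lam ^ 2) * e2 ν lam t) • P1 ν U0 V x
            + ((-(2 * ν * lam ^ 2) * e2 ν lam t) * e2 ν lam t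
              + e2 ν lam t * (-(2 * ν * lam ^ 2) * e2 ν lam t)) • P2 V x)
            + ∑ l, deriv (fun s => pke ν lam U0 V (a l) l s x) t) t := by
        have h2 : HasDerivAt (fun s => P0 ν U0 x + e2 ν lam s • P1 ν U0 V x)
            ((-(2 * ν * lam ^ 2) * e2 ν lam t) • P1 ν U0 V x) t :=
          (he.smul_const (P1 ν U0 V x)).const_add (P0 ν U0 x)
        have h2' : HasDerivAt (fun s => (e2 ν lam s * e2 ν lam s) • P2 V x)
            (((-(2 * ν * lam ^ 2) * e2 ν lam t) * e2 ν lam t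
              + e2 ν lam t * (-(2 * ν * lam ^ 2) * e2 ν lam t)) • P2 V x) t :=
          (he.mul he).smul_const (P2 V x)
        have h3 : HasDerivAt (fun s => ∑ l, pke ν lam U0 V (a l) l s x)
            (∑ l, deriv (fun s => pke ν lam U0 V (a l) l s x) t) t :=
          HasDerivAt.fun_sum fun l _ => (hpket l t x).hasDerivAt
        exact (h2.add h2').add h3
      rw [h1.deriv]
      have h2 : ‖∑ l, deriv (fun s => pke ν lam U0 V (a l) l s x) t‖
          ≤ q * (lam ^ 3 * wt ν lam t) :=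
        norm_sum3 fun l => (hQ l lam hlam t ht x).2.1
      have h4 := hew t ht
      have h3 : ‖(-(2 * ν * lam ^ 2) * e2 ν lam t) • P1 ν U0 V x‖
          ≤ 2 * ν * C1 * (lam ^ 3 * wt ν lam t) := by
        rw [norm_smul, Real.norm_eq_abs, abs_mul, abs_neg, abs_of_nonneg he0,
          abs_of_nonneg (by positivity : (0 : ℝ) ≤ 2 * ν * lam ^ 2)]
        calc 2 * ν * lam ^ 2 * e2 ν lam t * ‖P1 ν U0 V x‖
            = 2 * ν * (lam ^ 2 * e2 ν lam t) * ‖P1 ν U0 V x‖ := by ring
          _ ≤ 2 * ν * (lam ^ 3 * wt ν lam t) * C1 := by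
              refine mul_le_mul ?_ (hC1 x) (norm_nonneg _) (by positivity)
              exact mul_le_mul_of_nonneg_left h4 (by positivity)
          _ = _ := by ring
      have h3' : ‖((-(2 * ν * lam ^ 2) * e2 ν lam t) * e2 ν lam t
              + e2 ν lam t * (-(2 * ν * lam ^ 2) * e2 ν lam t)) • P2 V x‖
          ≤ 2 * ν * (2 * C2) * (lam ^ 3 * wt ν lam t) := by
        rw [norm_smul, Real.norm_eq_abs]
        have h6 : (-(2 * ν * lam ^ 2) * e2 ν lam t) * e2 ν lam t
              + e2 ν lam t * (-(2 * ν * lam ^ 2) * e2 ν lam t)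
            = -(4 * ν * (lam ^ 2 * e2 ν lam t) * e2 ν lam t) := by ring
        rw [h6, abs_neg, abs_of_nonneg (by positivity)]
        calc 4 * ν * (lam ^ 2 * e2 ν lam t) * e2 ν lam t * ‖P2 V x‖
            ≤ 4 * ν * (lam ^ 3 * wt ν lam t) * 1 * C2 := by
              refine mul_le_mul ?_ (hC2 x) (norm_nonneg _) (by positivity)
              refine mul_le_mul ?_ he1 he0 (by positivity)
              exact mul_le_mul_of_nonneg_left h4 (by positivity)
          _ = _ := by ring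
      have h5 := norm_add_le ((-(2 * ν * lam ^ 2) * e2 ν lam t) • P1 ν U0 V x
            + ((-(2 * ν * lam ^ 2) * e2 ν lam t) * e2 ν lam t
              + e2 ν lam t * (-(2 * ν * lam ^ 2) * e2 ν lam t)) • P2 V x)
        (∑ l, deriv (fun s => pke ν lam U0 V (a l) l s x) t)
      have h5' := norm_add_le ((-(2 * ν * lam ^ 2) * e2 ν lam t) • P1 ν U0 V x)
            (((-(2 * ν * lam ^ 2) * e2 ν lam t) * e2 ν lam t
              + e2 ν lam t * (-(2 * ν * lam ^ 2) * e2 ν lam t)) • P2 V x)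
      have hr : 0 ≤ (CU + CV + 2 * ν * CV + C0 + C1 + C2 + (CV + q) * D
        + (JU + JV + q * D)) * (lam ^ 3 * wt ν lam t) := by positivity
      have hr2 : 0 ≤ q + CU + CV + 2 * ν * CV + C0 + C1 + C2 + 2 * ν * (C1 + 2 * C2)
        + (CV + q) * D + (JU + JV + q * D) := by positivity
      nlinarith
  · -- the end of the time interval
    intro x
    have ht : 0 ≤ 1 / lam := by positivity
    have hwa := wt_at hν hlam
    have hew1 := e2_le_wt (lam := lam) hν ht
    have he0 := (e2_pos ν lam (1 / lam)).le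
    have he1 := e2_le_one (lam := lam) hν ht
    have hw0 := (wt_pos ν lam (1 / lam)).le
    rw [← hD] at hwa
    have hlw : lam * wt ν lam (1 / lam) ≤ D / lam := by
      rw [le_div_iff₀ hl0]
      calc lam * wt ν lam (1 / lam) * lam = lam ^ 2 * wt ν lam (1 / lam) := by ring
        _ ≤ D := hwa
    constructor
    · have h1 : ‖∑ l, pkt ν lam U0 V (a l) l (1 / lam) x‖ ≤ q * (lam * wt ν lam (1 / lam)) :=
        norm_sum3 fun l => (hQ l lam hlam (1 / lam) ht x).2.2.1
      have h2 : ‖e2 ν lam (1 / lam) • V x‖ ≤ CV * (D / lam) := by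
        rw [norm_smul, Real.norm_eq_abs, abs_of_nonneg he0, mul_comm]
        refine mul_le_mul (hCV x) ?_ he0 hCV0
        have h3 : wt ν lam (1 / lam) ≤ lam * wt ν lam (1 / lam) := by nlinarith
        linarith
      have h3 : cur ν lam U0 V a (1 / lam) x - U0 x
          = e2 ν lam (1 / lam) • V x + ∑ l, pkt ν lam U0 V (a l) l (1 / lam) x := by
        rw [hcur]
        abel
      rw [h3]
      have h4 := norm_add_le (e2 ν lam (1 / lam) • V x)
        (∑ l, pkt ν lam U0 V (a l) l (1 / lam) x)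
      have h5 : q * (lam * wt ν lam (1 / lam)) ≤ q * (D / lam) :=
        mul_le_mul_of_nonneg_left hlw hq0.le
      have h6 : (CV + q) * D / lam = CV * (D / lam) + q * (D / lam) := by ring
      have h7 : (CV + q) * D / lam ≤ (q + CU + CV + 2 * ν * CV + C0 + C1 + C2
          + 2 * ν * (C1 + 2 * C2) + (CV + q) * D + (JU + JV + q * D)) / lam := by
        apply div_le_div_of_nonneg_right _ hl0.le
        have hr2 : 0 ≤ q + CU + CV + 2 * ν * CV + C0 + C1 + C2 + 2 * ν * (C1 + 2 * C2)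
          + (JU + JV + q * D) := by positivity
        linarith
      linarith
    · have hpx : ∀ l, ContDiff ℝ ∞ (pkt ν lam U0 V (a l) l (1 / lam)) :=
        fun l => joint_x (hPSl l).smooth (1 / lam)
      have hVc : ContDiff ℝ ∞ (e2 ν lam (1 / lam) • V) := by
        have h := (contDiff_const (c := e2 ν lam (1 / lam)) (𝕜 := ℝ) (E := E3) (n := ∞)).smul
          hV.smooth
        exact h
      have h1 : cur ν lam U0 V a (1 / lam)
          = ((U0 + e2 ν lam (1 / lam) • V) + (pkt ν lam U0 V (a 0) 0 (1 / lam)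
            + pkt ν lam U0 V (a 1) 1 (1 / lam) + pkt ν lam U0 V (a 2) 2 (1 / lam))) := by
        funext y
        rw [hcur, Fin.sum_univ_three]
        rfl
      have h2 : jac (cur ν lam U0 V a (1 / lam)) x
          = (jac U0 x + e2 ν lam (1 / lam) • jac V x)
            + ∑ l, jac (pkt ν lam U0 V (a l) l (1 / lam)) x := by
        have s1 : ContDiff ℝ ∞ (U0 + e2 ν lam (1 / lam) • V) := hU.smooth.add hVc
        have s2 : ContDiff ℝ ∞ (pkt ν lam U0 V (a 0) 0 (1 / lam)
            + pkt ν lam U0 V (a 1) 1 (1 / lam)) := (hpx 0).add (hpx 1)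
        have s3 : ContDiff ℝ ∞ (pkt ν lam U0 V (a 0) 0 (1 / lam)
            + pkt ν lam U0 V (a 1) 1 (1 / lam) + pkt ν lam U0 V (a 2) 2 (1 / lam)) :=
          s2.add (hpx 2)
        rw [h1, jac_add s1 s3, jac_add hU.smooth hVc, jac_smul, jac_add s2 (hpx 2),
          jac_add (hpx 0) (hpx 1), Fin.sum_univ_three]
      rw [h2]
      have h3 : ‖∑ l, jac (pkt ν lam U0 V (a l) l (1 / lam)) x‖
          ≤ q * (lam ^ 2 * wt ν lam (1 / lam)) :=
        norm_sum3 fun l => (hQ l lam hlam (1 / lam) ht x).2.2.2.2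
      have h4 : ‖e2 ν lam (1 / lam) • jac V x‖ ≤ JV := by
        rw [norm_smul, Real.norm_eq_abs, abs_of_nonneg he0]
        calc e2 ν lam (1 / lam) * ‖jac V x‖ ≤ 1 * JV :=
              mul_le_mul he1 (hJV x) (norm_nonneg _) zero_le_one
          _ = JV := one_mul _
      have h5 := norm_add_le (jac U0 x + e2 ν lam (1 / lam) • jac V x)
        (∑ l, jac (pkt ν lam U0 V (a l) l (1 / lam)) x)
      have h6 := norm_add_le (jac U0 x) (e2 ν lam (1 / lam) • jac V x)
      have h7 := hJU x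
      have h8 : q * (lam ^ 2 * wt ν lam (1 / lam)) ≤ q * D :=
        mul_le_mul_of_nonneg_left hwa hq0.le
      have hr2 : 0 ≤ q + CU + CV + 2 * ν * CV + C0 + C1 + C2 + 2 * ν * (C1 + 2 * C2)
          + (CV + q) * D := by positivity
      linarith

end Run7.h141.DD
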